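import Pool.Agent.V11112.TE5

/-!
# A transitive system of finite entropy where only the spanning sets oscillate

The answer to the second question is yes. There is a topologically transitive system of entropy
`log 3` such that `(1 / T) log sep(X, δ, D_T)` converges for every `δ > 0`, while the lower and the
upper growth rate of `span(X, 1, D_T)` are different (the lower one is `0`).

The system is the orbit closure of a sequence which contains, separated by long gaps, all blocks that
consist of a word of length `2 i!` in the three letters `0, 1, 2` written in a first phase, a gap of
length `i!`, and the same word written in a second phase. Two letters are at distance `1 / 2` if they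
are close, and at distance `1` otherwise. In both phases the graph of closeness is a path with three
vertices, with the end `2`; the middle of the path is `0` in the first phase and `1` in the second. So
in each phase the letters are covered by two cliques, `{0, 1}` and `{2}`, the same ones in both
phases, and contain two letters which are not close: the growth rate of separated sets is `log 2` at
all scales in `(1 / 2, 1]`. Windows which see only one of the phases are dominated by the constant
word in the middle letter, so that `span` is small at the times `T = i!`. Windows of length
`5 i! + 2` see both phases, and the letter `2` is close to no other letter in both phases, so that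
`span` is large at these times.
-/

open Filter Topology

namespace Pool.Agent.Results.MP_307271_an.SpanOnlyOscillates

open V11112.TE

/-- closeness of the letters: all pairs but `{1, 2}` in the first phase, and all pairs but `{0, 2}`
in the second phase -/
def near (c : Bool) (v v' : Fin 3) : Prop :=
  match c with
  | false => ¬ ((v = 1 ∧ v' = 2) ∨ (v = 2 ∧ v' = 1))
  | true => ¬ ((v = 0 ∧ v' = 2) ∨ (v = 2 ∧ v' = 0))

instance (c : Bool) (v v' : Fin 3) : Decidable (near c v v') := by
  unfold near
  cases c <;> infer_instance

instance (c : Bool) (v v' : Fin 3) : Decidable (farV near c v v') := by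
  unfold farV
  infer_instance

/-- the two cliques -/
def col (v : Fin 3) : Bool := decide (v = 2)

/-- the dominating letters -/
def ctr : Bool → Fin 3
  | false => 0
  | true => 1

/-- two letters which are not close in the first phase -/
def sel : Bool → Fin 3
  | false => 1
  | true => 2

theorem col_clique : ∀ (c : Bool) (v v' : Fin 3), col v = col v' → ¬ farV near c v v' := by
  decide

theorem sel_far : ∀ a b : Bool, a ≠ b → farV near false (sel a) (sel b) := by
  decide

theorem ctr_dom : ∀ (c : Bool) (v : Fin 3), ¬ farV near c (ctr c) v := by
  decide

theorem col_sel : ∀ c : Bool, col (sel c) = c := by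
  decide

theorem col_of_near : ∀ v v' : Fin 3, ¬ farV near false v v' → ¬ farV near true v v' →
    col v = col v' := by
  decide

/-- **A transitive system where only the spanning sets oscillate** (positive answer to the second
question). There is a topologically transitive system `(X, F)` of entropy `log 3` such that the lower
and the upper growth rate of `span` at the scale `ε = 1` are different, while for every `δ > 0` the
numbers `(1 / T) log sep(X, δ, D_T)` converge, so that the lower and the upper growth rate of `sep`
at the scale `δ` are equal. -/
theorem result : ∃ (X : Type) (_ : MetricSpace X) (_ : CompactSpace X) (F : X ≃ₜ X),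
    Transitive F ∧ HasEntropy F (Real.log 3) ∧
    (∃ ε : ℝ, 0 < ε ∧ lowerSpan F ε < upperSpan F ε) ∧
    (∀ δ : ℝ, 0 < δ → ∃ s : ℝ, Tendsto (fun T : ℕ => Real.log (sep F δ T) / T) atTop (𝓝 s)) ∧
    ∀ δ : ℝ, 0 < δ → lowerSep F δ = upperSep F δ := by
  obtain ⟨e, he⟩ := exists_surjective_nat (ℕ × List (Fin 3))
  have hlim : ∀ δ : ℝ, 0 < δ → ∃ s : ℝ, Tendsto (fun T : ℕ =>
      Real.log (sep (shiftHomeo (cl := clS near) (x := word e)) δ T) / T) atTop (𝓝 s) := by
    intro δ hδ
    rcases le_or_gt δ (1 / 2) with h | h
    · exact ⟨_, tendsto_sep_small he hδ h⟩
    · rcases le_or_gt δ 1 with h' | h'
      · exact ⟨_, tendsto_sep_mid (C := Bool) col col_clique sel sel_far (by decide) he h h'⟩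
      · exact ⟨_, tendsto_sep_large h'⟩
  refine ⟨Pt (clS near) (word e), inferInstance, compactSpace_pt, shiftHomeo,
    transitive_shift (word_isLim e), ?_, ⟨1, one_pos, ?_⟩, hlim, ?_⟩
  · have h := hasEntropy (adj := near) he
    rw [Fintype.card_fin] at h
    exact_mod_cast h
  · have h1 := lowerSpan_le_zero (adj := near) he ctr ctr_dom (ε := 1) (by norm_num) le_rfl
    have hlog : 0 < Real.log 2 := Real.log_pos (by norm_num)
    have h2 := (upperSpan_ge (adj := near) (C := Bool) col sel col_sel col_of_near
      (by decide) he (ε := 1) (by norm_num) le_rfl (c := 1 / 5 * Real.log 2) (by
        rw [Fintype.card_bool]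
        push_cast
        linarith)).1
    linarith
  · intro δ hδ
    obtain ⟨s, hs⟩ := hlim δ hδ
    exact hs.liminf_eq.trans hs.limsup_eq.symm

end Pool.Agent.Results.MP_307271_an.SpanOnlyOscillates
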